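import Mathlib

/-!
# Relations between the translates of an odd function on a finite set with an involution

`X` is a finite set with a fixed point free involution `c` and a transitive group `Γ` of permutations
that commute with `c`.  We give conditions on the absolute values of an odd integral function `e` under
which the translates of `e` satisfy no antisymmetric linear relation, whatever `Γ` is.
-/

set_option autoImplicit false

open Finset

namespace Pool.Agent.K7.H7.AS

variable {X : Type*} [Fintype X] [DecidableEq X]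

/-- `T` contains exactly one element of each pair `{x, c x}` -/
def Tr (c : X → X) (T : Finset X) : Prop := ∀ x, x ∈ T ↔ c x ∉ T

/-- the situation: a fixed point free involution and a transitive group commuting with it -/
structure Sit (c : X → X) (Γ : Subgroup (Equiv.Perm X)) : Prop where
  cc : ∀ x, c (c x) = x
  ne : ∀ x, c x ≠ x
  comm : ∀ γ ∈ Γ, ∀ x, γ (c x) = c (γ x)
  trans : ∀ x y, ∃ γ ∈ Γ, γ x = y

variable {c : X → X} {Γ : Subgroup (Equiv.Perm X)}

lemma Tr.sum_eq {c : X → X} (hcc : ∀ x, c (c x) = x) {T : Finset X} (hT : Tr c T) {R : Type*}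
    [AddCommMonoid R] (f : X → R) : ∑ x, f x = ∑ x ∈ T, (f x + f (c x)) := by
  rw [Finset.sum_add_distrib, ← Finset.sum_add_sum_compl T f]
  congr 1
  refine Finset.sum_nbij' (fun x => c x) (fun x => c x) ?_ ?_ ?_ ?_ ?_
  · intro x hx
    rw [Finset.mem_compl] at hx
    by_contra h
    exact hx ((hT x).2 h)
  · intro x hx
    rw [Finset.mem_compl]
    exact (hT x).1 hx
  · intro x _
    exact hcc x
  · intro x _
    exact hcc x
  · intro x _
    rw [hcc]

/-- a transversal inside a set which meets all pairs -/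
lemma exists_tr (hcc : ∀ x, c (c x) = x) (hne : ∀ x, c x ≠ x) (O : Finset X)
    (hO : ∀ x, x ∈ O ∨ c x ∈ O) : ∃ T : Finset X, Tr c T ∧ T ⊆ O := by
  classical
  let e := Fintype.equivFin X
  refine ⟨O.filter fun x => c x ∉ O ∨ e x < e (c x), ?_, Finset.filter_subset _ _⟩
  intro x
  simp only [Finset.mem_filter, hcc]
  have h1 : e x ≠ e (c x) := fun h => hne x (e.injective h).symm
  have h2 := hO x
  rcases lt_or_gt_of_ne h1 with h | h
  · have h' : ¬ e (c x) < e x := not_lt.2 h.le
    tauto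
  · have h' : ¬ e x < e (c x) := not_lt.2 h.le
    tauto

/-- a transversal through a given element -/
lemma exists_tr_mem (hcc : ∀ x, c (c x) = x) (hne : ∀ x, c x ≠ x) (x : X) :
    ∃ T : Finset X, Tr c T ∧ x ∈ T := by
  classical
  obtain ⟨T, hT, hTO⟩ := exists_tr hcc hne (univ.erase (c x)) (by
    intro y
    by_cases h : y = c x
    · right
      rw [h, hcc]
      simpa using (hne x).symm
    · left
      simpa using h)
  refine ⟨T, hT, (hT x).2 fun h => ?_⟩
  simpa using hTO h

lemma Tr.image (hs : Sit c Γ) {T : Finset X} (hT : Tr c T) {γ : Equiv.Perm X} (hγ : γ ∈ Γ) :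
    Tr c (T.map γ.toEmbedding) := by
  intro x
  have h1 : ∀ y, y ∈ T.map γ.toEmbedding ↔ γ.symm y ∈ T := by
    intro y
    rw [Finset.mem_map_equiv]
  rw [h1, h1, hT]
  have h2 : c (γ.symm x) = γ.symm (c x) := by
    apply γ.injective
    rw [hs.comm γ hγ, Equiv.apply_symm_apply, Equiv.apply_symm_apply]
  rw [h2]

/-! ### the archimedean condition -/

/-- **The archimedean condition.** -/
theorem arch (hs : Sit c Γ) (b e : X → ℚ) (hb : b ≠ 0) (hbc : ∀ x, b (c x) = - b x)
    (hec : ∀ x, e (c x) = - e x) (hrel : ∀ γ ∈ Γ, ∑ x, b x * e (γ x) = 0) (x₀ : X)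
    (hdom : ∑ x ∈ (univ.erase x₀).erase (c x₀), |e x| < 2 * |e x₀|) : False := by
  classical
  have hX : (univ : Finset X).Nonempty := ⟨x₀, mem_univ _⟩
  obtain ⟨x, -, hx⟩ := Finset.exists_max_image univ (fun x => |b x|) hX
  obtain ⟨γ, hγ, hγx⟩ := hs.trans x x₀
  have hbx : 0 < |b x| := by
    by_contra h
    apply hb
    funext y
    have h1 := hx y (mem_univ y)
    have h2 : |b y| ≤ 0 := h1.trans (not_lt.1 h)
    simpa using h2
  have hne : γ (c x) = c x₀ := by rw [hs.comm γ hγ, hγx]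
  have h1 := hrel γ hγ
  have hmem : c x ∈ univ.erase x := by simpa using hs.ne x
  rw [← Finset.add_sum_erase univ _ (mem_univ x), ← Finset.add_sum_erase _ _ hmem, hbc, hne, hec,
    hγx] at h1
  have h2 : 2 * (b x * e x₀) = - ∑ y ∈ (univ.erase x).erase (c x), b y * e (γ y) := by
    linarith
  have h3 : |2 * (b x * e x₀)| ≤ ∑ y ∈ (univ.erase x).erase (c x), |b x| * |e (γ y)| := by
    rw [h2, abs_neg]
    refine (Finset.abs_sum_le_sum_abs _ _).trans (Finset.sum_le_sum fun y _ => ?_)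
    rw [abs_mul]
    exact mul_le_mul_of_nonneg_right (hx y (mem_univ y)) (abs_nonneg _)
  rw [← Finset.mul_sum] at h3
  have h4 : ∑ y ∈ (univ.erase x).erase (c x), |e (γ y)| =
      ∑ z ∈ (univ.erase x₀).erase (c x₀), |e z| := by
    refine Finset.sum_nbij' (fun y => γ y) (fun z => γ.symm z) ?_ ?_ ?_ ?_ ?_
    · intro y hy
      simp only [mem_erase, mem_univ, and_true, ne_eq] at hy ⊢
      refine ⟨fun h => hy.1 (γ.injective (h.trans hne.symm)), fun h => hy.2 (γ.injective ?_)⟩
      rw [h, hγx]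
    · intro z hz
      simp only [mem_erase, mem_univ, and_true, ne_eq] at hz ⊢
      refine ⟨fun h => hz.1 ?_, fun h => hz.2 ?_⟩
      · rw [← hne, ← h, Equiv.apply_symm_apply]
      · rw [← hγx, ← h, Equiv.apply_symm_apply]
    · intro y _
      exact γ.symm_apply_apply y
    · intro z _
      exact γ.apply_symm_apply z
    · intro y _
      rfl
  rw [h4] at h3
  have h5 : |b x| * ∑ z ∈ (univ.erase x₀).erase (c x₀), |e z| < |b x| * (2 * |e x₀|) :=
    mul_lt_mul_of_pos_left hdom hbx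
  have h6 : |2 * (b x * e x₀)| = |b x| * (2 * |e x₀|) := by
    rw [abs_mul, abs_mul, abs_two]
    ring
  linarith

/-! ### reduction modulo a prime -/

/-- a rational vector is a multiple of an integral one which is not zero modulo `l` -/
lemma exists_primitive (b : X → ℚ) (hb : b ≠ 0) (l : ℕ) (hl : l.Prime) :
    ∃ (a : X → ℤ) (q : ℚ), q ≠ 0 ∧ (∀ x, (a x : ℚ) = q * b x) ∧ ∃ x, ¬ (l : ℤ) ∣ a x := by
  classical
  obtain ⟨y, hy⟩ := Function.ne_iff.1 hb
  have hX : (univ : Finset X).Nonempty := ⟨y, mem_univ _⟩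
  let D : ℕ := ∏ z, (b z).den
  have hD : D ≠ 0 := prod_ne_zero_iff.2 fun z _ => (b z).den_nz
  let A : X → ℤ := fun z => (b z).num * ∏ w ∈ univ.erase z, ((b w).den : ℤ)
  have hA : ∀ z, (A z : ℚ) = D * b z := by
    intro z
    simp only [A, D]
    rw [← mul_prod_erase univ (fun z => (b z).den) (mem_univ z)]
    push_cast
    have h1 : ((b z).num : ℚ) = (b z).den * b z := by
      rw [mul_comm]
      exact (Rat.mul_den_eq_num (b z)).symm
    rw [h1]
    ring
  obtain ⟨a, ha, hg⟩ := Finset.extract_gcd A hX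
  set d : ℤ := univ.gcd A with hd
  have hd0 : d ≠ 0 := by
    intro h
    have h1 := ha y (mem_univ y)
    rw [h, zero_mul] at h1
    have h2 := hA y
    rw [h1, Int.cast_zero] at h2
    rcases mul_eq_zero.1 h2.symm with h3 | h3
    · exact hD (by exact_mod_cast h3)
    · exact hy h3
  refine ⟨a, D / d, ?_, fun x => ?_, ?_⟩
  · exact div_ne_zero (by exact_mod_cast hD) (by exact_mod_cast hd0)
  · have h1 := ha x (mem_univ x)
    have h2 := hA x
    rw [h1] at h2
    push_cast at h2
    have h3 : (d : ℚ) ≠ 0 := by exact_mod_cast hd0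
    field_simp
    linarith
  · by_contra h
    push Not at h
    have h1 : (l : ℤ) ∣ univ.gcd a := Finset.dvd_gcd fun x _ => h x
    rw [hg] at h1
    have h2 : (l : ℤ) ∣ 1 := h1
    have h3 := Int.natAbs_dvd_natAbs.2 h2
    simp only [Int.natAbs_natCast, Int.natAbs_one, Nat.dvd_one] at h3
    exact hl.one_lt.ne' h3

/-- an antisymmetric relation modulo `l` -/
structure MRel (c : X → X) (Γ : Subgroup (Equiv.Perm X)) (l : ℕ) (e β : X → ZMod l) : Prop where
  odd : ∀ x, β (c x) = - β x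
  rel : ∀ T, Tr c T → ∀ γ ∈ Γ, ∑ y ∈ T, β y * e (γ y) = 0

/-- **Reduction modulo a prime.** -/
theorem exists_mrel (hs : Sit c Γ) (b : X → ℚ) (hb : b ≠ 0) (hbc : ∀ x, b (c x) = - b x)
    (l : ℕ) (hl : l.Prime) (k : ℕ) (e : X → ℤ) (hec : ∀ x, e (c x) = - e x)
    (hrel : ∀ γ ∈ Γ, ∑ x, b x * ((l ^ k * e (γ x) : ℤ) : ℚ) = 0) :
    ∃ β : X → ZMod l, β ≠ 0 ∧ (∀ x, b x = 0 → β x = 0) ∧
      MRel c Γ l (fun x => (e x : ZMod l)) β := by
  obtain ⟨a, q, hq, ha, x, hx⟩ := exists_primitive b hb l hl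
  have hac : ∀ x, a (c x) = - a x := by
    intro x
    have h1 : ((a (c x) : ℤ) : ℚ) = ((- a x : ℤ) : ℚ) := by
      rw [Int.cast_neg, ha, ha, hbc]
      ring
    exact_mod_cast h1
  refine ⟨fun y => (a y : ZMod l), ?_, ?_, ?_, ?_⟩
  · intro h
    apply hx
    rw [← ZMod.intCast_zmod_eq_zero_iff_dvd]
    exact congrFun h x
  · intro y hy
    have h1 := ha y
    rw [hy, mul_zero] at h1
    have h2 : a y = 0 := by exact_mod_cast h1
    simp only [h2, Int.cast_zero]
  · intro y
    simp only [hac, Int.cast_neg]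
  · intro T hT γ hγ
    have h1 : ∑ x, a x * e (γ x) = 0 := by
      have h2 : ((l : ℚ) ^ k) * ((∑ x, a x * e (γ x) : ℤ) : ℚ) = 0 := by
        have h3 := congrArg (fun t => q * t) (hrel γ hγ)
        simp only [mul_zero, mul_sum] at h3
        push_cast
        rw [mul_sum, ← h3]
        refine sum_congr rfl fun y _ => ?_
        rw [ha]
        push_cast
        ring
      have h4 : ((l : ℚ) ^ k) ≠ 0 := pow_ne_zero _ (by exact_mod_cast hl.ne_zero)
      have h5 := (mul_eq_zero.1 h2).resolve_left h4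
      exact_mod_cast h5
    rw [hT.sum_eq hs.cc] at h1
    have h2 : ∑ y ∈ T, a y * e (γ y) = 0 := by
      have h3 : ∀ y ∈ T, a y * e (γ y) + a (c y) * e (γ (c y)) = 2 * (a y * e (γ y)) := by
        intro y _
        rw [hac, hs.comm γ hγ, hec]
        ring
      rw [sum_congr rfl h3, ← mul_sum] at h1
      omega
    have h3 := congrArg (fun t : ℤ => (t : ZMod l)) h2
    simp only [Int.cast_sum, Int.cast_mul, Int.cast_zero] at h3
    exact h3

/-- **The `l`-adic condition.** -/
theorem padic (hs : Sit c Γ) {l : ℕ} [Fact l.Prime] {e β : X → ZMod l} (hβ : β ≠ 0)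
    (h : MRel c Γ l e β) (x₀ : X) (h0 : e x₀ ≠ 0)
    (h1 : ∀ x, x ≠ x₀ → x ≠ c x₀ → e x = 0) : False := by
  classical
  obtain ⟨x, hx⟩ := Function.ne_iff.1 hβ
  obtain ⟨γ, hγ, hγx⟩ := hs.trans x x₀
  obtain ⟨T, hT, hxT⟩ := exists_tr_mem hs.cc hs.ne x
  have h2 := h.rel T hT γ hγ
  rw [Finset.sum_eq_single_of_mem x hxT] at h2
  · rw [hγx] at h2
    rcases mul_eq_zero.1 h2 with h3 | h3
    · exact hx h3
    · exact h0 h3
  · intro y hy hyx
    rw [h1 (γ y), mul_zero]
    · intro h3
      exact hyx (γ.injective (h3.trans hγx.symm))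
    · intro h3
      have h4 : γ y = γ (c x) := by rw [h3, hs.comm γ hγ, hγx]
      rw [γ.injective h4] at hy
      exact (hT x).1 hxT hy

/-- **One exceptional pair modulo two:** a relation has no zeros. -/
theorem oneEven (hs : Sit c Γ) {e β : X → ZMod 2} (hβ : β ≠ 0)
    (h : MRel c Γ 2 e β) (x₀ : X) (h0 : e x₀ = 0)
    (h1 : ∀ x, x ≠ x₀ → x ≠ c x₀ → e x = 1) (x : X) : β x ≠ 0 := by
  classical
  obtain ⟨x₁, hx₁⟩ := Function.ne_iff.1 hβ
  have key : ∀ T, Tr c T → ∀ z ∈ T, β z = ∑ y ∈ T, β y := by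
    intro T hT z hz
    obtain ⟨γ, hγ, hγz⟩ := hs.trans z x₀
    have h2 := h.rel T hT γ hγ
    rw [← Finset.add_sum_erase T _ hz, hγz, h0, mul_zero, zero_add] at h2
    have h3 : ∑ y ∈ T.erase z, β y * e (γ y) = ∑ y ∈ T.erase z, β y := by
      refine sum_congr rfl fun y hy => ?_
      rw [h1 (γ y), mul_one]
      · intro h4
        exact (mem_erase.1 hy).1 (γ.injective (h4.trans hγz.symm))
      · intro h4
        have h5 : γ y = γ (c z) := by rw [h4, hs.comm γ hγ, hγz]
        have h6 := (mem_erase.1 hy).2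
        rw [γ.injective h5] at h6
        exact (hT z).1 hz h6
    rw [h3] at h2
    rw [← Finset.add_sum_erase T _ hz, h2, add_zero]
  obtain ⟨T, hT, hxT⟩ := exists_tr_mem hs.cc hs.ne x
  intro h0
  have h2 : ∀ y, β y = 0 := by
    intro y
    by_cases hy : y ∈ T
    · rw [key T hT y hy, ← key T hT x hxT, h0]
    · have hy' : c y ∈ T := by
        by_contra h3
        exact hy ((hT y).2 h3)
      have h3 := h.odd (c y)
      rw [hs.cc, key T hT _ hy', ← key T hT x hxT, h0, neg_zero] at h3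
      exact h3
  exact hx₁ (h2 x₁)

/-- **One exceptional pair modulo two, and an even number of pairs.** -/
theorem oneEven' (hs : Sit c Γ) {e β : X → ZMod 2} (hβ : β ≠ 0)
    (h : MRel c Γ 2 e β) (x₀ : X) (h0 : e x₀ = 0)
    (h1 : ∀ x, x ≠ x₀ → x ≠ c x₀ → e x = 1) (hX : 4 ∣ Fintype.card X) : False := by
  classical
  obtain ⟨T, hT, hxT⟩ := exists_tr_mem hs.cc hs.ne x₀
  have hcard : Fintype.card X = 2 * T.card := by
    have h2 := hT.sum_eq hs.cc (fun _ => 1)
    simp only [sum_const, smul_eq_mul, mul_one, card_univ] at h2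
    omega
  have hone : ∀ y, β y = 1 := fun y => by
    have h2 := oneEven hs hβ h x₀ h0 h1 y
    have h3 : ∀ z : ZMod 2, z ≠ 0 → z = 1 := by decide
    exact h3 _ h2
  have h2 := h.rel T hT 1 Γ.one_mem
  rw [← Finset.add_sum_erase T _ hxT] at h2
  have h3 : ∑ y ∈ T.erase x₀, β y * e ((1 : Equiv.Perm X) y) = ∑ y ∈ T.erase x₀, 1 := by
    refine sum_congr rfl fun y hy => ?_
    rw [hone, one_mul, Equiv.Perm.one_apply, h1 y (mem_erase.1 hy).1]
    intro h4
    have h6 := (mem_erase.1 hy).2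
    rw [h4] at h6
    exact (hT x₀).1 hxT h6
  rw [h3, Equiv.Perm.one_apply, h0, mul_zero, zero_add, sum_const, nsmul_one,
    card_erase_of_mem hxT] at h2
  have h4 : 2 ∣ T.card - 1 := (ZMod.natCast_eq_zero_iff _ _).1 h2
  have h5 : 0 < T.card := card_pos.2 ⟨_, hxT⟩
  omega

end Pool.Agent.K7.H7.AS
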