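import Mathlib
import Pool.Agent.K7.H7.AS.Comb

/-!
# The prime power condition

If the number of pairs is a power of the prime `l` and no signed sum of the values of `e` is divisible
by `l`, then there is no antisymmetric relation modulo `l` between the translates of `e`: a Sylow
`l`-subgroup is transitive on the pairs and fixes a relation.
-/

set_option autoImplicit false

open Finset

namespace Pool.Agent.K7.H7.AS

variable {X : Type*} [Fintype X] [DecidableEq X] {c : X → X} {Γ : Subgroup (Equiv.Perm X)}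

/-- the permutations in `Γ` which map `x` to `x` or `c x` -/
def HH (hs : Sit c Γ) (x : X) : Subgroup Γ where
  carrier := {γ | (γ : Equiv.Perm X) x = x ∨ (γ : Equiv.Perm X) x = c x}
  one_mem' := Or.inl rfl
  mul_mem' := by
    rintro γ δ (h1 | h1) (h2 | h2)
    · left
      change (γ : Equiv.Perm X) ((δ : Equiv.Perm X) x) = x
      rw [h2, h1]
    · right
      change (γ : Equiv.Perm X) ((δ : Equiv.Perm X) x) = c x
      rw [h2, hs.comm _ γ.2, h1]
    · right
      change (γ : Equiv.Perm X) ((δ : Equiv.Perm X) x) = c x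
      rw [h2, h1]
    · left
      change (γ : Equiv.Perm X) ((δ : Equiv.Perm X) x) = x
      rw [h2, hs.comm _ γ.2, h1, hs.cc]
  inv_mem' := by
    rintro γ (h | h)
    · left
      change (γ : Equiv.Perm X)⁻¹ x = x
      rw [Equiv.Perm.inv_eq_iff_eq]
      exact h.symm
    · right
      change (γ : Equiv.Perm X)⁻¹ x = c x
      rw [Equiv.Perm.inv_eq_iff_eq, hs.comm _ γ.2, h, hs.cc]

lemma index_HH (hs : Sit c Γ) (x : X) : 2 * (HH hs x).index = Fintype.card X := by
  classical
  have h1 : (MulAction.stabilizer Γ x) ≤ HH hs x := fun γ hγ => Or.inl hγ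
  have h2 := Subgroup.relIndex_mul_index h1
  have h3 : (MulAction.stabilizer Γ x).index = Fintype.card X := by
    rw [MulAction.index_stabilizer]
    have : MulAction.orbit Γ x = Set.univ := by
      rw [Set.eq_univ_iff_forall]
      intro y
      obtain ⟨γ, hγ, h⟩ := hs.trans x y
      exact ⟨⟨γ, hγ⟩, h⟩
    rw [this, Set.ncard_univ, Nat.card_eq_fintype_card]
  have h4 : (MulAction.stabilizer Γ x).relIndex (HH hs x) = 2 := by
    have h5 : (MulAction.stabilizer Γ x).subgroupOf (HH hs x) =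
        MulAction.stabilizer (HH hs x) x := rfl
    unfold Subgroup.relIndex
    rw [h5, MulAction.index_stabilizer]
    have : MulAction.orbit (HH hs x) x = {x, c x} := by
      ext y
      constructor
      · rintro ⟨γ, rfl⟩
        rcases γ.2 with h | h
        · left
          exact h
        · right
          exact h
      · rintro (h | h)
        · rw [h]
          exact MulAction.mem_orbit_self _
        · rw [Set.mem_singleton_iff] at h
          obtain ⟨γ, hγ, h6⟩ := hs.trans x y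
          exact ⟨⟨⟨γ, hγ⟩, Or.inr (h6.trans h)⟩, h6⟩
    rw [this, Set.ncard_pair (hs.ne x).symm]
  rw [h4, h3] at h2
  exact h2

/-- a Sylow subgroup is transitive on the pairs -/
theorem sylow_trans (hs : Sit c Γ) {l r : ℕ} [Fact l.Prime] (hcard : Fintype.card X = 2 * l ^ r)
    (P : Sylow l Γ) (x y : X) : ∃ π ∈ (P : Subgroup Γ), (π : Equiv.Perm X) x = y ∨
      (π : Equiv.Perm X) x = c y := by
  classical
  set H := HH hs x with hH
  have hidx : H.index = l ^ r := by
    have h0 := index_HH hs x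
    rw [← hH, hcard] at h0
    omega
  have hl : l.Prime := Fact.out
  have hA : Nat.card (Γ ⧸ H) = l ^ r := by
    rw [← hidx]
    rfl
  have hΓ : Nat.card Γ = l ^ r * Nat.card H := by
    rw [← hidx, mul_comm]
    exact (Subgroup.card_mul_index H).symm
  have hH0 : Nat.card H ≠ 0 := Nat.card_pos.ne'
  have hP : Nat.card P = l ^ (r + (Nat.card H).factorization l) := by
    rw [Sylow.card_eq_multiplicity, hΓ, Nat.factorization_mul (pow_ne_zero _ hl.ne_zero) hH0,
      Finsupp.add_apply, hl.factorization_pow, Finsupp.single_eq_same]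
  -- the stabilizer of the trivial coset
  set a : Γ ⧸ H := ((1 : Γ) : Γ ⧸ H) with ha
  have hst : ∃ m, Nat.card (MulAction.stabilizer P a) = l ^ m :=
    (IsPGroup.to_subgroup P.2 _).exists_card_eq
  obtain ⟨m, hm⟩ := hst
  have hdvd : Nat.card (MulAction.stabilizer P a) ∣ Nat.card H := by
    let f : MulAction.stabilizer P a →* H :=
      { toFun := fun γ => ⟨((γ : P) : Γ), by
          have h1 := γ.2
          rw [MulAction.mem_stabilizer_iff] at h1
          have h2 : ((((γ : P) : Γ) * 1 : Γ) : Γ ⧸ H) = ((1 : Γ) : Γ ⧸ H) := h1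
          rw [mul_one, QuotientGroup.eq, mul_one] at h2
          exact (inv_mem_iff).1 h2⟩
        map_one' := rfl
        map_mul' := fun _ _ => rfl }
    refine Subgroup.card_dvd_of_injective f ?_
    intro γ δ h
    have h1 : ((f γ : H) : Γ) = ((f δ : H) : Γ) := congrArg (fun t : H => (t : Γ)) h
    exact Subtype.ext (Subtype.ext h1)
  have hmle : m ≤ (Nat.card H).factorization l := by
    rw [hm] at hdvd
    exact (hl.pow_dvd_iff_le_factorization hH0).1 hdvd
  have horb := MulAction.card_orbit_mul_card_stabilizer_eq_card_group P a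
  rw [← Nat.card_eq_fintype_card, ← Nat.card_eq_fintype_card, ← Nat.card_eq_fintype_card, hm] at horb
  have horb2 : l ^ r ≤ Nat.card (MulAction.orbit P a) := by
    have h1 : Nat.card (MulAction.orbit P a) * l ^ m = l ^ (r + (Nat.card H).factorization l) :=
      horb.trans hP
    have h2 : l ^ (r + m) ≤ l ^ (r + (Nat.card H).factorization l) :=
      Nat.pow_le_pow_right hl.pos (by omega)
    rw [← h1, pow_add] at h2
    exact Nat.le_of_mul_le_mul_right h2 (pow_pos hl.pos m)
  have huniv : MulAction.orbit P a = Set.univ := by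
    refine Set.eq_of_subset_of_ncard_le (Set.subset_univ _) ?_ (Set.toFinite _)
    rw [Set.ncard_univ, ← Nat.card_coe_set_eq]
    exact hA.le.trans horb2
  obtain ⟨γ, hγ, hγx⟩ := hs.trans x y
  have h1 : (((⟨γ, hγ⟩ : Γ)) : Γ ⧸ H) ∈ MulAction.orbit P a := by
    rw [huniv]
    exact Set.mem_univ _
  obtain ⟨π, hπ⟩ := h1
  have h2 : ((((π : P) : Γ) * 1 : Γ) : Γ ⧸ H) = ((⟨γ, hγ⟩ : Γ) : Γ ⧸ H) := hπ
  rw [mul_one] at h2
  have h3 := (QuotientGroup.eq.1 h2.symm)
  refine ⟨π, π.2, ?_⟩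
  have h4 : (((⟨γ, hγ⟩ : Γ)⁻¹ * (π : Γ) : Γ) : Equiv.Perm X) x = γ⁻¹ (((π : Γ) : Equiv.Perm X) x) := rfl
  rcases h3 with h5 | h5
  · left
    rw [h4, Equiv.Perm.inv_eq_iff_eq] at h5
    rw [h5, hγx]
  · right
    rw [h4, Equiv.Perm.inv_eq_iff_eq] at h5
    rw [h5, hs.comm γ hγ, hγx]

/-- the group of the relations modulo `l` -/
def NN (c : X → X) (Γ : Subgroup (Equiv.Perm X)) (l : ℕ) (e : X → ZMod l) :
    AddSubgroup (X → ZMod l) where
  carrier := {β | MRel c Γ l e β}
  zero_mem' := ⟨fun x => by simp, fun T _ γ _ => by simp⟩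
  add_mem' := by
    rintro β β' ⟨h1, h2⟩ ⟨h3, h4⟩
    refine ⟨fun x => ?_, fun T hT γ hγ => ?_⟩
    · rw [Pi.add_apply, Pi.add_apply, h1, h3]
      ring
    · simp only [Pi.add_apply, add_mul, sum_add_distrib]
      rw [h2 T hT γ hγ, h4 T hT γ hγ, add_zero]
  neg_mem' := by
    rintro β ⟨h1, h2⟩
    refine ⟨fun x => ?_, fun T hT γ hγ => ?_⟩
    · rw [Pi.neg_apply, Pi.neg_apply, h1]
    · simp only [Pi.neg_apply, neg_mul, sum_neg_distrib]
      rw [h2 T hT γ hγ, neg_zero]

lemma MRel.move (hs : Sit c Γ) {l : ℕ} {e β : X → ZMod l} (h : MRel c Γ l e β)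
    {γ : Equiv.Perm X} (hγ : γ ∈ Γ) : MRel c Γ l e (fun x => β (γ⁻¹ x)) := by
  have hγ' : γ⁻¹ ∈ Γ := Γ.inv_mem hγ
  refine ⟨fun x => ?_, fun T hT δ hδ => ?_⟩
  · change β (γ⁻¹ (c x)) = - β (γ⁻¹ x)
    rw [hs.comm _ hγ', h.odd]
  · have h1 := h.rel _ (hT.image hs hγ') (δ * γ) (Γ.mul_mem hδ hγ)
    rw [Finset.sum_map] at h1
    rw [← h1]
    refine sum_congr rfl fun x _ => ?_
    change β (γ⁻¹ x) * e (δ x) = β (γ⁻¹ x) * e (δ (γ (γ⁻¹ x)))
    rw [← Equiv.Perm.mul_apply γ γ⁻¹, mul_inv_cancel, Equiv.Perm.one_apply]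

/-- **The prime power condition.** -/
theorem primePow (hs : Sit c Γ) {l r : ℕ} [Fact l.Prime] (hcard : Fintype.card X = 2 * l ^ r)
    {e β : X → ZMod l} (hβ : β ≠ 0) (h : MRel c Γ l e β)
    (hsum : ∀ T, Tr c T → ∑ x ∈ T, e x ≠ 0) : False := by
  classical
  have hl : l.Prime := Fact.out
  obtain ⟨P⟩ : Nonempty (Sylow l Γ) := inferInstance
  let N := NN c Γ l e
  let act : MulAction P N :=
    { smul := fun γ β => ⟨fun x => β.1 (((γ : Γ) : Equiv.Perm X)⁻¹ x), β.2.move hs (γ : Γ).2⟩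
      one_smul := fun β => rfl
      mul_smul := fun γ δ β => by
        apply Subtype.ext
        funext x
        change β.1 ((((γ : Γ) : Equiv.Perm X) * ((δ : Γ) : Equiv.Perm X))⁻¹ x) =
          β.1 (((δ : Γ) : Equiv.Perm X)⁻¹ (((γ : Γ) : Equiv.Perm X)⁻¹ x))
        rw [mul_inv_rev]
        rfl }
  have hNcard : l ∣ Nat.card N := by
    have h1 : Nat.card N ∣ Nat.card (X → ZMod l) := AddSubgroup.card_addSubgroup_dvd_card N
    rw [Nat.card_fun, Nat.card_zmod] at h1
    obtain ⟨m, -, hm⟩ := (Nat.dvd_prime_pow hl).1 h1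
    rw [hm]
    refine dvd_pow_self l fun hm0 => ?_
    rw [hm0, pow_zero] at hm
    have h2 : Subsingleton N := (Nat.card_eq_one_iff_unique.1 hm).1
    have h3 : (⟨β, h⟩ : N) = 0 := Subsingleton.elim _ _
    exact hβ (congrArg Subtype.val h3)
  have hfix0 : (0 : N) ∈ MulAction.fixedPoints P N := fun γ => rfl
  obtain ⟨β', hfix, hne⟩ := IsPGroup.exists_fixed_point_of_prime_dvd_card_of_fixed_point
    P.2 N hNcard hfix0
  have hβ' : (β' : X → ZMod l) ≠ 0 := fun h0 => hne (Subtype.ext h0.symm)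
  obtain ⟨x₁, hx₁⟩ := Function.ne_iff.1 hβ'
  have hinv : ∀ π ∈ (P : Subgroup Γ), ∀ x, β'.1 ((π : Equiv.Perm X) x) = β'.1 x := by
    intro π hπ x
    have h1 := hfix ⟨π, hπ⟩
    have h2 := congrFun (congrArg Subtype.val h1) ((π : Equiv.Perm X) x)
    have h3 : β'.1 (((π : Γ) : Equiv.Perm X)⁻¹ ((π : Equiv.Perm X) x)) =
        β'.1 ((π : Equiv.Perm X) x) := h2
    rw [← h3]
    exact congrArg β'.1 ((π : Equiv.Perm X).symm_apply_apply x)
  let O : Finset X := univ.filter fun y => ∃ π ∈ (P : Subgroup Γ), (π : Equiv.Perm X) x₁ = y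
  obtain ⟨T, hT, hTO⟩ := exists_tr hs.cc hs.ne O (by
    intro y
    obtain ⟨π, hπ, h1 | h1⟩ := sylow_trans hs hcard P x₁ y
    · left
      exact mem_filter.2 ⟨mem_univ _, π, hπ, h1⟩
    · right
      exact mem_filter.2 ⟨mem_univ _, π, hπ, h1⟩)
  have h1 := β'.2.rel T hT 1 Γ.one_mem
  have h2 : ∑ y ∈ T, β'.1 y * e ((1 : Equiv.Perm X) y) = β'.1 x₁ * ∑ y ∈ T, e y := by
    rw [mul_sum]
    refine sum_congr rfl fun y hy => ?_
    obtain ⟨-, π, hπ, h3⟩ := mem_filter.1 (hTO hy)
    rw [← h3, hinv π hπ]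
    rfl
  have h3 : β'.1 x₁ * ∑ y ∈ T, e y = 0 := h2.symm.trans h1
  rcases mul_eq_zero.1 h3 with h4 | h4
  · exact hx₁ h4
  · exact hsum T hT h4

end Pool.Agent.K7.H7.AS
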