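import Mathlib
import Pool.Agent.K7.H7.AS.Syl
import Pool.Agent.TH170.FW.Main
import Pool.Agent.TH170.MF.Quad2
import Pool.Agent.TH170.QC.Final
import Pool.Agent.Y4.Aut

/-!
# Weights for which all CM types are nondegenerate
-/

set_option autoImplicit false

open Finset NumberField Module

namespace Pool.Agent.K7.H7.AS

open Pool.Agent.H204R3.CM Pool.Agent.TH170.CM Pool.Agent.TH170.MF Pool.Agent.TH170.FW

section gen

variable {E : Type*} [Field E]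

/-- the permutation of the embeddings defined by an automorphism -/
def act (σ : ℂ ≃+* ℂ) : Equiv.Perm (E →+* ℂ) where
  toFun φ := (σ : ℂ →+* ℂ).comp φ
  invFun φ := (σ.symm : ℂ →+* ℂ).comp φ
  left_inv φ := by
    ext x
    exact σ.symm_apply_apply (φ x)
  right_inv φ := by
    ext x
    exact σ.apply_symm_apply (φ x)

variable (E) in
/-- the group of these permutations -/
def GG : Subgroup (Equiv.Perm (E →+* ℂ)) where
  carrier := Set.range act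
  mul_mem' := by
    rintro _ _ ⟨σ, rfl⟩ ⟨τ, rfl⟩
    exact ⟨τ.trans σ, rfl⟩
  one_mem' := ⟨RingEquiv.refl ℂ, rfl⟩
  inv_mem' := by
    rintro _ ⟨σ, rfl⟩
    exact ⟨σ.symm, rfl⟩

end gen

section field

variable {E : Type} [Field E] [NumberField E] [IsCMField E]

lemma sit : Sit (ComplexEmbedding.conjugate (K := E)) (GG E) where
  cc := conj_conj
  ne := conj_ne
  comm := by
    rintro _ ⟨σ, rfl⟩ φ
    exact Pool.Agent.TH170.QC.comp_conj σ φ
  trans := by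
    intro φ ψ
    obtain ⟨σ, hσ⟩ := Pool.Agent.Y4.exists_aut_emb φ ψ
    exact ⟨act σ, ⟨σ, rfl⟩, hσ⟩

/-- No sum of the weights at the embeddings in a CM type, with any signs, is divisible by `d`. -/
def NoSignedSum {E : Type} [Field E] (M : (E →+* ℂ) → ℤ) (d : ℤ) : Prop :=
  ∀ T : Finset (E →+* ℂ), IsCMType (T : Set (E →+* ℂ)) → ∀ s : (E →+* ℂ) → ℤ,
    (∀ φ, s φ = 1 ∨ s φ = -1) → ¬ d ∣ ∑ φ ∈ T, s φ * M φ

open Classical in
/-- Weights such that all CM types are nondegenerate, whatever the Galois group of the CM field is. -/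
inductive IsRigid {E : Type} [Field E] [NumberField E] (M : (E →+* ℂ) → ℤ) : Prop
  | dominant (φ₀ : E →+* ℂ) (h : ∑ φ with φ ≠ φ₀ ∧ φ ≠ ComplexEmbedding.conjugate φ₀, |M φ| <
      2 * |M φ₀|)
  | oneUnit (l k : ℕ) (hl : l.Prime) (φ₀ : E →+* ℂ) (hk : ∀ φ, (l : ℤ) ^ k ∣ M φ)
      (h₀ : ¬ (l : ℤ) ^ (k + 1) ∣ M φ₀)
      (h : ∀ φ, φ ≠ φ₀ → φ ≠ ComplexEmbedding.conjugate φ₀ → (l : ℤ) ^ (k + 1) ∣ M φ)
  | oneEven (k : ℕ) (φ₀ : E →+* ℂ) (hk : ∀ φ, (2 : ℤ) ^ k ∣ M φ)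
      (h₀ : (2 : ℤ) ^ (k + 1) ∣ M φ₀)
      (h : ∀ φ, φ ≠ φ₀ → φ ≠ ComplexEmbedding.conjugate φ₀ → ¬ (2 : ℤ) ^ (k + 1) ∣ M φ)
      (h4 : 4 ∣ finrank ℚ E ∨ NoSignedSum M 0 ∨
        ∀ F : IntermediateField ℚ E, finrank ℚ F = 2 → IsTotallyReal F)
  | primePower (l k r : ℕ) (hl : l.Prime) (hE : finrank ℚ E = 2 * l ^ r)
      (hk : ∀ φ, (l : ℤ) ^ k ∣ M φ) (h : NoSignedSum M ((l : ℤ) ^ (k + 1)))

/-- the weights with the signs of a CM type -/
noncomputable def ew (M : (E →+* ℂ) → ℤ) (Φ : Set (E →+* ℂ)) (φ : E →+* ℂ) : ℤ := sgn Φ φ * M φ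

lemma sgn_sq (Φ : Set (E →+* ℂ)) (φ : E →+* ℂ) : sgn Φ φ = 1 ∨ sgn Φ φ = -1 := by
  unfold sgn
  split_ifs
  · exact Or.inl rfl
  · exact Or.inr rfl

lemma ew_conj {M : (E →+* ℂ) → ℤ} (hM : ∀ φ, M (ComplexEmbedding.conjugate φ) = M φ)
    {Φ : Set (E →+* ℂ)} (hΦ : IsCMType Φ) (φ : E →+* ℂ) :
    ew M Φ (ComplexEmbedding.conjugate φ) = - ew M Φ φ := by
  unfold ew
  rw [hM, (oddSign_sgn hΦ).2]
  ring

/-- the relations given by a function in a space orthogonal to the weights -/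
lemma rel_of_orth {M : (E →+* ℂ) → ℤ} {Φ : Set (E →+* ℂ)} {S : Submodule ℚ ((E →+* ℂ) → ℚ)}
    (hst : IsStable S) (hor : OrthW M Φ S) {b : (E →+* ℂ) → ℚ} (hb : b ∈ S) :
    ∀ γ ∈ GG E, ∑ φ, b φ * ((ew M Φ (γ φ) : ℤ) : ℚ) = 0 := by
  rintro _ ⟨σ, rfl⟩
  have h1 := hor _ (hst σ.symm b hb)
  rw [← h1]
  refine Fintype.sum_equiv (act σ) _ _ fun φ => ?_
  have h2 : ((σ.symm : ℂ ≃+* ℂ) : ℂ →+* ℂ).comp (act σ φ) = φ := (act σ).symm_apply_apply φ
  rw [h2, mul_comm]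
  rfl

lemma isCM_of_tr {T : Finset (E →+* ℂ)} (hT : Tr (ComplexEmbedding.conjugate (K := E)) T) :
    IsCMType (T : Set (E →+* ℂ)) := fun φ => hT φ

lemma card_emb : Fintype.card (E →+* ℂ) = finrank ℚ E := Embeddings.card E ℂ

/-- a space all whose nonzero functions have no zeros is spanned by a function with values one and
minus one -/
lemma one_dim {S : Submodule ℚ ((E →+* ℂ) → ℚ)} (hS : S ∈ minimalSpaces E)
    (h : ∀ b ∈ S, b ≠ 0 → ∀ φ, b φ ≠ 0) : finrank ℚ S = 1 := by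
  obtain ⟨ψ₀⟩ : Nonempty (E →+* ℂ) := inferInstance
  have h1 : finrank ℚ S ≤ finrank ℚ ℚ := by
    refine LinearMap.finrank_le_finrank_of_injective
      (f := (LinearMap.proj (R := ℚ) (φ := fun _ : E →+* ℂ => ℚ) ψ₀).comp S.subtype) ?_
    rw [← LinearMap.ker_eq_bot, LinearMap.ker_eq_bot']
    intro s hs
    by_contra h0
    exact h s s.2 (fun h2 => h0 (Subtype.ext h2)) ψ₀ hs
  have h2 : finrank ℚ S ≠ 0 := by
    intro h0
    exact hS.1 (Submodule.finrank_eq_zero.1 h0)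
  rw [finrank_self] at h1
  omega

lemma zmod_two {z : ZMod 2} (h : z ≠ 0) : z = 1 := by
  revert z
  decide

/-- **All CM types are nondegenerate.** -/
theorem nondeg {M : (E →+* ℂ) → ℤ} (hM : ∀ φ, M (ComplexEmbedding.conjugate φ) = M φ)
    (h : IsRigid M) {Φ : Set (E →+* ℂ)} (hΦ : IsCMType Φ) : Φ ∉ degTypes M := by
  classical
  rintro ⟨-, S, hS, hor⟩
  have hs := sit (E := E)
  obtain ⟨b, hb, hb0⟩ := Submodule.exists_mem_ne_zero_of_ne_bot hS.1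
  have hst := hS.2.1
  have hodd := hS.2.2.1
  have hrel := rel_of_orth hst hor hb
  -- division by a power of a prime number
  have hdiv : ∀ l k : ℕ, l.Prime → (∀ φ, (l : ℤ) ^ k ∣ M φ) → ∃ M' : (E →+* ℂ) → ℤ,
      (∀ φ, M φ = (l : ℤ) ^ k * M' φ) ∧ (∀ φ, M' (ComplexEmbedding.conjugate φ) = M' φ) ∧
      ∀ b ∈ S, b ≠ 0 → ∃ β : (E →+* ℂ) → ZMod l, β ≠ 0 ∧ (∀ φ, b φ = 0 → β φ = 0) ∧
        MRel (ComplexEmbedding.conjugate (K := E)) (GG E) l (fun φ => (ew M' Φ φ : ZMod l)) β := by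
    intro l k hl hk
    choose M' hM' using hk
    have hl0 : (l : ℤ) ^ k ≠ 0 := pow_ne_zero _ (by exact_mod_cast hl.ne_zero)
    have hM'c : ∀ φ, M' (ComplexEmbedding.conjugate φ) = M' φ := by
      intro φ
      apply mul_left_cancel₀ hl0
      rw [← hM', ← hM', hM]
    refine ⟨M', hM', hM'c, fun b hb hb0 => ?_⟩
    obtain ⟨β, h1, h2, h3⟩ := exists_mrel hs b hb0 (hodd b hb) l hl k (ew M' Φ)
      (ew_conj hM'c hΦ) (fun γ hγ => by
        rw [← rel_of_orth hst hor hb γ hγ]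
        refine sum_congr rfl fun φ _ => ?_
        congr 2
        unfold ew
        rw [hM']
        ring)
    exact ⟨β, h1, h2, h3⟩
  cases h with
  | dominant φ₀ h =>
    refine arch hs b (fun φ => ((ew M Φ φ : ℤ) : ℚ)) hb0 (hodd b hb) (fun φ => ?_) hrel φ₀ ?_
    · rw [ew_conj hM hΦ, Int.cast_neg]
    · have h1 : ∀ φ, |((ew M Φ φ : ℤ) : ℚ)| = ((|M φ| : ℤ) : ℚ) := by
        intro φ
        unfold ew
        rw [← Int.cast_abs, abs_mul]
        rcases sgn_sq Φ φ with h2 | h2 <;> rw [h2] <;> simp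
      simp only [h1]
      have h2 : (univ.erase φ₀).erase (ComplexEmbedding.conjugate φ₀) =
          univ.filter fun φ => φ ≠ φ₀ ∧ φ ≠ ComplexEmbedding.conjugate φ₀ := by
        ext φ
        simp only [mem_erase, mem_univ, and_true, mem_filter, true_and]
        exact and_comm
      rw [h2]
      exact_mod_cast h
  | oneUnit l k hl φ₀ hk h₀ h =>
    have : Fact l.Prime := ⟨hl⟩
    obtain ⟨M', hM', -, hβ⟩ := hdiv l k hl hk
    obtain ⟨β, hβ0, -, hβr⟩ := hβ b hb hb0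
    have hl0 : (l : ℤ) ^ k ≠ 0 := pow_ne_zero _ (by exact_mod_cast hl.ne_zero)
    have hiff : ∀ φ, ((ew M' Φ φ : ℤ) : ZMod l) = 0 ↔ (l : ℤ) ^ (k + 1) ∣ M φ := by
      intro φ
      rw [ZMod.intCast_zmod_eq_zero_iff_dvd, hM', pow_succ, mul_dvd_mul_iff_left hl0]
      unfold ew
      rcases sgn_sq Φ φ with h2 | h2 <;> rw [h2] <;> simp
    refine padic hs hβ0 hβr φ₀ ?_ ?_
    · intro h1
      exact h₀ ((hiff _).1 h1)
    · intro φ h1 h2
      exact (hiff _).2 (h φ h1 h2)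
  | oneEven k φ₀ hk h₀ h h4 =>
    have : Fact (Nat.Prime 2) := ⟨Nat.prime_two⟩
    obtain ⟨M', hM', -, hβ⟩ := hdiv 2 k Nat.prime_two (by simpa using hk)
    have hl0 : ((2 : ℕ) : ℤ) ^ k ≠ 0 := pow_ne_zero _ (by norm_num)
    have hiff : ∀ φ, ((ew M' Φ φ : ℤ) : ZMod 2) = 0 ↔ (2 : ℤ) ^ (k + 1) ∣ M φ := by
      intro φ
      have h3 : ((2 : ℕ) : ℤ) ^ (k + 1) = (2 : ℤ) ^ (k + 1) := by norm_num
      rw [ZMod.intCast_zmod_eq_zero_iff_dvd, ← h3, hM', pow_succ, mul_dvd_mul_iff_left hl0]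
      unfold ew
      rcases sgn_sq Φ φ with h2 | h2 <;> rw [h2] <;> simp
    have hone : ∀ φ, φ ≠ φ₀ → φ ≠ ComplexEmbedding.conjugate φ₀ →
        ((ew M' Φ φ : ℤ) : ZMod 2) = 1 := by
      intro φ h1 h2
      exact zmod_two fun h5 => h φ h1 h2 ((hiff φ).1 h5)
    have hzero : ((ew M' Φ φ₀ : ℤ) : ZMod 2) = 0 := (hiff φ₀).2 h₀
    have hdim : finrank ℚ S = 1 := by
      refine one_dim hS fun b hb hb0 φ hφ => ?_
      obtain ⟨β, hβ0, hβz, hβr⟩ := hβ b hb hb0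
      exact oneEven hs hβ0 hβr φ₀ hzero hone φ (hβz φ hφ)
    rcases h4 with h4 | h4 | h4
    · obtain ⟨β, hβ0, -, hβr⟩ := hβ b hb hb0
      refine oneEven' hs hβ0 hβr φ₀ hzero hone ?_
      rw [card_emb]
      exact h4
    · obtain ⟨ε, hε, hSε⟩ := exists_signChar hS hdim
      have h1 := hor (fun φ => (ε φ : ℚ)) (by
        rw [hSε]
        exact Submodule.mem_span_singleton_self _)
      obtain ⟨T, hT, -⟩ := exists_tr_mem hs.cc hs.ne φ₀
      refine h4 T (isCM_of_tr hT) (fun φ => sgn Φ φ * ε φ) (fun φ => ?_) ?_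
      · rcases sgn_sq Φ φ with h2 | h2 <;> rcases hε.val φ with h3 | h3 <;>
          simp [h2, h3]
      · rw [zero_dvd_iff]
        have h2 : ∑ φ, sgn Φ φ * M φ * ε φ = 0 := by exact_mod_cast h1
        rw [hT.sum_eq hs.cc] at h2
        have h3 : ∀ φ ∈ T, sgn Φ φ * M φ * ε φ + sgn Φ (ComplexEmbedding.conjugate φ) *
            M (ComplexEmbedding.conjugate φ) * ε (ComplexEmbedding.conjugate φ) =
            2 * (sgn Φ φ * ε φ * M φ) := by
          intro φ _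
          rw [hM, hε.odd, (oddSign_sgn hΦ).2]
          ring
        rw [sum_congr rfl h3, ← mul_sum] at h2
        omega
    · obtain ⟨ε, hε, -⟩ := exists_signChar hS hdim
      obtain ⟨L, _, _, j, hj⟩ := exists_galois (fun _ : Unit => E)
      obtain ⟨ψ₀⟩ : Nonempty (E →+* ℂ) := inferInstance
      obtain ⟨φ₁, -⟩ := hj () ψ₀
      exact not_real_fldE j hε φ₁ (h4 _ (finrank_fldE j hε φ₁))
  | primePower l k r hl hE hk h =>
    have : Fact l.Prime := ⟨hl⟩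
    obtain ⟨M', hM', -, hβ⟩ := hdiv l k hl hk
    obtain ⟨β, hβ0, -, hβr⟩ := hβ b hb hb0
    have hl0 : (l : ℤ) ^ k ≠ 0 := pow_ne_zero _ (by exact_mod_cast hl.ne_zero)
    refine primePow hs (by rw [card_emb, hE]) hβ0 hβr fun T hT h1 => ?_
    refine h T (isCM_of_tr hT) (fun φ => sgn Φ φ) (fun φ => sgn_sq Φ φ) ?_
    have h2 : ∑ φ ∈ T, sgn Φ φ * M φ = (l : ℤ) ^ k * ∑ φ ∈ T, ew M' Φ φ := by
      rw [mul_sum]
      refine sum_congr rfl fun φ _ => ?_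
      unfold ew
      rw [hM']
      ring
    rw [h2, pow_succ, mul_dvd_mul_iff_left hl0, ← ZMod.intCast_zmod_eq_zero_iff_dvd]
    push_cast
    exact h1

end field

end Pool.Agent.K7.H7.AS
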