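import Pool.Agent.TH117.PO.Full

/-!
# Numerical equivalence and the numerical conjecture of Hodge type if all Tate classes are algebraic
-/

set_option autoImplicit false
set_option linter.unusedSectionVars false
set_option linter.unusedVariables false

namespace Pool.Agent.K7.H7.AS

open NumberField Pool.Agent.H204R3.CM Pool.Agent.W547.KB Pool.Agent.W547.LD Pool.Agent.W547.HR
  Pool.Agent.W495.TA Module Equiv Pool.Agent.TH117.BL Pool.Agent.TH117.PO
open scoped TensorProduct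

section comb

variable {P Q H R : Type} [Fintype P] [DecidableEq P] [Fintype Q] [DecidableEq Q] [CommRing R]

/-- An alternating sum inside an alternating sum. -/
theorem altSum_absorb_left (g : (P → H) → R) (h : (Q → H) → R) (v : P ⊕ Q → H) :
    altSum (times (altSum g) h) v = (Fintype.card (Perm P) : R) * altSum (times g h) v := by
  have h1 : ∀ τ : Perm P, ∑ σ : Perm (P ⊕ Q), ((Perm.sign σ : ℤ) : R) *
      ((((Perm.sign τ : ℤ) : R) * g (fun p => v (σ (Sum.inl (τ p))))) *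
        h (fun q => v (σ (Sum.inr q)))) = altSum (times g h) v := by
    intro τ
    unfold altSum
    refine Fintype.sum_equiv (Equiv.mulRight (Perm.sumCongr τ 1)) _ _ fun σ => ?_
    have h2 : ((Perm.sign (σ * Perm.sumCongr τ 1) : ℤ) : R) =
        ((Perm.sign σ : ℤ) : R) * ((Perm.sign τ : ℤ) : R) := by
      rw [Perm.sign_mul, Perm.sign_sumCongr]
      push_cast
      simp
    change _ = ((Perm.sign (σ * Perm.sumCongr τ 1) : ℤ) : R) * _
    rw [h2]
    unfold times
    change _ = _ * (g (fun p => v (σ (Sum.inl (τ p)))) * h (fun q => v (σ (Sum.inr q))))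
    ring
  calc altSum (times (altSum g) h) v = ∑ τ : Perm P, ∑ σ : Perm (P ⊕ Q), ((Perm.sign σ : ℤ) : R) *
        ((((Perm.sign τ : ℤ) : R) * g (fun p => v (σ (Sum.inl (τ p))))) *
          h (fun q => v (σ (Sum.inr q)))) := by
        rw [Finset.sum_comm]
        unfold altSum times
        refine Finset.sum_congr rfl fun σ _ => ?_
        rw [Finset.sum_mul, Finset.mul_sum]
    _ = (Fintype.card (Perm P) : R) * altSum (times g h) v := by
        rw [Finset.sum_congr rfl fun τ _ => h1 τ, Finset.sum_const, Finset.card_univ,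
          nsmul_eq_mul]

end comb

variable {p : ℕ} [Fact p.Prime] {ν : PadicAlgCl p ≃+* ℂ} {Ω : Type} [Field Ω] [CharZero Ω]
  {C : (Y : RedAV p ν) → (κ : Type) → ((TM Ω Y) [⋀^κ]→ₗ[Ω] Ω) → Prop}

variable (Ω) in
/-- The class `z ∈ H^{2r}(Y)` is primitive up to numerical equivalence for the polarization given by
`α`, `dim Y = 2 r + m`: the cup product of `z ∪ E ^ (m + 1)` and any class of a cycle of
complementary dimension is zero. -/
def IsNumPrim (C : (Y : RedAV p ν) → (κ : Type) → ((TM Ω Y) [⋀^κ]→ₗ[Ω] Ω) → Prop)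
    {Y : RedAV p ν} (α : Y.X.H1) {κ : Type} [Fintype κ] [DecidableEq κ] (m : ℕ)
    (z : (TM Ω Y) [⋀^κ]→ₗ[Ω] Ω) : Prop :=
  ∀ (κ' : Type) [Fintype κ'] [DecidableEq κ'] (y : (TM Ω Y) [⋀^κ']→ₗ[Ω] Ω), C Y κ' y →
    Fintype.card κ + 2 * (m + 1) + Fintype.card κ' = finrank ℚ Y.X.H1 →
      ∀ v : (κ ⊕ (Fin (m + 1) × Fin 2)) ⊕ κ' → Y.X.H1,
        altSum (times (times (res z) (powE (castE Ω (riemannForm Y.X α)) (m + 1))) (res y)) v = 0

/-- Classes of cycles are in `Alg` if all Tate classes are. -/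
theorem alg_of_card (hC : IsCycleSystem Ω C) (hT : AreTate Ω C) {Y : RedAV p ν}
    (h : ∀ (s m : ℕ) (f : (TM Ω Y) [⋀^Fin (2 * m)]→ₗ[Ω] Ω), 0 < s → IsTateClass Ω Y s m f →
      Alg Ω Y (Fin (2 * m)) f) {κ : Type} (m : ℕ) (e : κ ≃ Fin (2 * m))
    {z : (TM Ω Y) [⋀^κ]→ₗ[Ω] Ω} (hz : C Y κ z) : Alg Ω Y κ z := by
  obtain ⟨s, hs, h1⟩ := hT (z.domDomCongr e) (hC.reindex e z hz)
  have h2 := Alg.reindex e.symm _ (h s _ _ hs h1)
  have h3 : (z.domDomCongr e).domDomCongr e.symm = z := by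
    refine AlternatingMap.ext fun v => ?_
    change z _ = z v
    congr 1
    funext k
    simp
  rwa [h3] at h2

/-- a reindexing of pairs -/
def pairEquiv (r : ℕ) : Fin r × Fin 2 ≃ Fin (2 * r) :=
  finProdFinEquiv.trans (finCongr (mul_comm r 2))

/-- Numerically primitive classes are primitive. -/
theorem prim_of_numPrim [IsAlgClosed Ω] (hC : IsCycleSystem Ω C) (hT : AreTate Ω C)
    {Y : RedAV p ν}
    (h : ∀ (s m : ℕ) (f : (TM Ω Y) [⋀^Fin (2 * m)]→ₗ[Ω] Ω), 0 < s → IsTateClass Ω Y s m f →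
      Alg Ω Y (Fin (2 * m)) f) {α : Y.X.H1} (hα : IsPolar Y.X α) {r m : ℕ}
    {z : (TM Ω Y) [⋀^Fin r × Fin 2]→ₗ[Ω] Ω} (hz : C Y (Fin r × Fin 2) z)
    (hp : IsNumPrim Ω C α m z) : IsPrim α m z := by
  classical
  have hne : Nonempty ((Y.X).prod (single (Pool.Agent.TH117.BL.kp p))).I := ⟨Sum.inr ()⟩
  obtain ⟨L, _, _, _, _, j, hj⟩ := exists_cm ((Y.X).prod (single (Pool.Agent.TH117.BL.kp p)))
  have hB : Big Y.X j := fun i ψ => hj (Sum.inl i) ψ
  let jO : L →+* Ω := ((IsAlgClosed.lift : L →ₐ[ℚ] Ω) : L →+* Ω)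
  obtain ⟨θ, hθ⟩ := exists_theta (jO := jO) j hα
  have hθr := res_theta j hB hθ
  have hCθ : C Y (Fin 2) θ := theta_mem hC hα hθr
  have hθ1 : ∀ x y : Y.X.H1, θ ![(1 : Ω) ⊗ₜ[ℚ] x, (1 : Ω) ⊗ₜ[ℚ] y] =
      castE Ω (riemannForm Y.X α) x y := by
    intro x y
    rw [castE, ← hθr]
    unfold res
    congr 1
    funext k
    fin_cases k <;> rfl
  obtain ⟨f, a, ha, hf, hfv⟩ := power_mem hC hCθ (m + 1)
  have hcup : C Y (Fin r × Fin 2 ⊕ Fin (m + 1) × Fin 2) (cupO z f) :=
    hC.cup z f hz hf _ fun v => cupO_apply z f v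
  have hfr : ∀ v, res f v = (a : Ω) * altSum (powE (castE Ω (riemannForm Y.X α)) (m + 1)) v := by
    intro v
    unfold res
    rw [hfv]
    congr 1
    unfold altSum powE
    refine Finset.sum_congr rfl fun σ _ => ?_
    simp only [hθ1]
  set c : Ω := (Fintype.card (Perm (Fin (m + 1) × Fin 2)) : Ω) with hc
  have hc0 : c ≠ 0 := Nat.cast_ne_zero.2 Fintype.card_ne_zero
  have ha0 : (a : Ω) ≠ 0 := by exact_mod_cast ha
  have hres : ∀ v, res (cupO z f) v =
      (a : Ω) * c * altSum (times (res z) (powE (castE Ω (riemannForm Y.X α)) (m + 1))) v := by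
    intro v
    have h1 : res (cupO z f) v = altSum (times (res z) (res f)) v := by
      unfold res
      rw [cupO_apply]
      rfl
    rw [h1]
    have h2 : times (res z) (res f) = fun w => (a : Ω) *
        times (res z) (altSum (powE (castE Ω (riemannForm Y.X α)) (m + 1))) w := by
      funext w
      unfold times
      rw [hfr]
      ring
    rw [h2, altSum_const_mul, altSum_absorb]
    ring
  have hnum : IsNumTrivial Ω C (cupO z f) := by
    intro κ' _ _ y hy hcard v
    have h1 := hp κ' y hy (by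
      rw [← hcard, Fintype.card_sum, Fintype.card_prod (Fin (m + 1)), Fintype.card_fin,
        Fintype.card_fin]
      ring) v
    have h2 : times (res (cupO z f)) (res y) = fun w => ((a : Ω) * c) *
        times (altSum (times (res z) (powE (castE Ω (riemannForm Y.X α)) (m + 1)))) (res y) w := by
      funext w
      unfold times
      rw [hres]
      unfold times
      ring
    rw [h2, altSum_const_mul, altSum_absorb_left, h1, mul_zero, mul_zero]
  have hA : Alg Ω Y (Fin r × Fin 2 ⊕ Fin (m + 1) × Fin 2) (cupO z f) := by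
    refine alg_of_card hC hT h (r + (m + 1)) ?_ hcup
    exact ((Equiv.sumCongr (pairEquiv r) (pairEquiv (m + 1))).trans finSumFinEquiv).trans
      (finCongr (by ring))
  have h0 := nondegenerate hC hA hnum
  intro v
  have h1 := hres v
  have h2 : res (cupO z f) v = 0 := by
    rw [h0]
    rfl
  rw [h2] at h1
  exact (mul_eq_zero.1 h1.symm).resolve_left (mul_ne_zero ha0 hc0)

/-- **The numerical conjecture of Hodge type** if all Tate classes are in `Alg`. -/
theorem numHodge [IsAlgClosed Ω] (hC : IsCycleSystem Ω C) (hR : IsRosatiPositive Ω C)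
    (hT : AreTate Ω C) {Y : RedAV p ν}
    (h : ∀ (s m : ℕ) (f : (TM Ω Y) [⋀^Fin (2 * m)]→ₗ[Ω] Ω), 0 < s → IsTateClass Ω Y s m f →
      Alg Ω Y (Fin (2 * m)) f) {α : Y.X.H1} (hα : IsPolar Y.X α) {r m : ℕ}
    (hrm : 2 * (2 * r + m) = finrank ℚ Y.X.H1)
    {z : (TM Ω Y) [⋀^Fin r × Fin 2]→ₗ[Ω] Ω} (hz : C Y (Fin r × Fin 2) z)
    (hp : IsNumPrim Ω C α m z) (hn : ¬ IsNumTrivial Ω C z) : IsPosClass α m z := by
  refine positive hC hR hα hrm hz (alg_of_card hC hT h r (pairEquiv r) hz) ?_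
    (prim_of_numPrim hC hT h hα hz hp)
  rintro rfl
  apply hn
  intro κ' _ _ y _ _ v
  unfold altSum
  refine Finset.sum_eq_zero fun σ _ => ?_
  have h1 : res (0 : (TM Ω Y) [⋀^Fin r × Fin 2]→ₗ[Ω] Ω) = fun _ => 0 := rfl
  rw [h1]
  unfold times
  rw [zero_mul, mul_zero]

end Pool.Agent.K7.H7.AS
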