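import Pool.Agent.K7.H7.AS.Nondeg
import Pool.Agent.TH170.GS.Rel

/-!
# Multiplicative relations between Weil numbers with rigid slopes
-/

set_option autoImplicit false
set_option linter.unusedSectionVars false
set_option linter.unusedVariables false

namespace Pool.Agent.K7.H7.AS

open NumberField Finset Module Pool.Agent.H204R3.CM Pool.Agent.H977R3.CM Pool.Agent.TH170.CM
  Pool.Agent.TH170.MF Pool.Agent.TH117 Pool.Agent.TH170.FW Pool.Agent.TH170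

variable {J : Type} [Fintype J] {K : J → Type} [∀ j, Field (K j)]
  [∀ j, NumberField (K j)] [∀ j, IsCMField (K j)]

/-- An additive relation between the signed weights is invariant under complex conjugation. -/
theorem count_conj [∀ j, DecidableEq (K j →+* ℂ)] [DecidableEq J] (hind : PairwiseIndep K)
    {M : ∀ j, (K j →+* ℂ) → ℤ}
    (hM : ∀ j φ, M j (ComplexEmbedding.conjugate φ) = M j φ) (hR : ∀ j, IsRigid (M j))
    {Φ : ∀ j, Set (K j →+* ℂ)} (hΦ : ∀ j, IsCMType (Φ j)) {κ : J → ℝ} (hκ : ∀ j, κ j ≠ 0)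
    {Z : Type} [Fintype Z] (x : Z → Σ j, (K j →+* ℂ))
    (hrel : ∀ σ : ℂ ≃+* ℂ, ∑ z, κ (x z).1 * ((CM.sgn (Φ (x z).1) ((σ : ℂ →+* ℂ).comp (x z).2) *
      M (x z).1 ((σ : ℂ →+* ℂ).comp (x z).2) : ℤ) : ℝ) = 0) (y : Σ j, (K j →+* ℂ)) :
    (∑ z, if x z = y then (1 : ℝ) else 0) =
      ∑ z, if x z = ⟨y.1, ComplexEmbedding.conjugate y.2⟩ then (1 : ℝ) else 0 := by
  classical
  let X : Type := Σ j, (K j →+* ℂ)
  let inv : X → X := fun z => ⟨z.1, ComplexEmbedding.conjugate z.2⟩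
  have hinv : ∀ z, inv (inv z) = z := by
    rintro ⟨i, φ⟩
    simp only [inv, conj_conj]
  let ε : ∀ i, (K i →+* ℂ) → ℝ := fun i φ => ((CM.sgn (Φ i) φ * M i φ : ℤ) : ℝ)
  have hεc : ∀ i φ, ε i (ComplexEmbedding.conjugate φ) = - ε i φ := by
    intro i φ
    simp only [ε]
    rw [hM, (oddSign_sgn (hΦ i)).2]
    push_cast
    ring
  let a : ∀ i, (K i →+* ℂ) → ℝ := fun i φ =>
    ∑ z, ((if x z = ⟨i, φ⟩ then (1 : ℝ) else 0) -
      (if x z = ⟨i, ComplexEmbedding.conjugate φ⟩ then 1 else 0))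
  let c : ∀ i, (K i →+* ℂ) → ℝ := fun i φ => κ i * a i φ
  have hc : ∀ i φ, c i (ComplexEmbedding.conjugate φ) = - c i φ := by
    intro i φ
    simp only [c, a]
    rw [conj_conj, ← mul_neg, ← sum_neg_distrib]
    congr 1
    exact sum_congr rfl fun w _ => by ring
  have hrel' : ∀ σ : ℂ ≃+* ℂ, ∑ i, ∑ φ : K i →+* ℂ, c i φ *
      ((CM.sgn (Φ i) ((σ : ℂ →+* ℂ).comp φ) * M i ((σ : ℂ →+* ℂ).comp φ) : ℤ) : ℝ) = 0 := by
    intro σ
    have h1 : ∑ i, ∑ φ : K i →+* ℂ, c i φ *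
        ((CM.sgn (Φ i) ((σ : ℂ →+* ℂ).comp φ) * M i ((σ : ℂ →+* ℂ).comp φ) : ℤ) : ℝ) =
        ∑ z : X, ∑ w : Z, (((if x w = z then (1 : ℝ) else 0) -
          (if x w = inv z then 1 else 0)) *
            (κ z.1 * ε z.1 ((σ : ℂ →+* ℂ).comp z.2))) := by
      rw [← Finset.univ_sigma_univ, Finset.sum_sigma]
      refine sum_congr rfl fun i _ => sum_congr rfl fun φ _ => ?_
      simp only [c, a]
      rw [mul_sum, sum_mul]
      refine sum_congr rfl fun w _ => ?_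
      simp only [ε, inv]
      ring
    rw [h1, sum_comm]
    have h2 : ∀ w : Z, ∑ z : X, (((if x w = z then (1 : ℝ) else 0) -
          (if x w = inv z then 1 else 0)) *
            (κ z.1 * ε z.1 ((σ : ℂ →+* ℂ).comp z.2))) =
          2 * (κ (x w).1 * ε (x w).1 ((σ : ℂ →+* ℂ).comp (x w).2)) := by
      intro w
      have h3 : ∀ z' : X, (((if x w = z' then (1 : ℝ) else 0) -
          (if x w = inv z' then 1 else 0)) *
            (κ z'.1 * ε z'.1 ((σ : ℂ →+* ℂ).comp z'.2))) =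
          (if x w = z' then κ z'.1 * ε z'.1 ((σ : ℂ →+* ℂ).comp z'.2) else 0) -
            (if inv (x w) = z' then κ z'.1 * ε z'.1 ((σ : ℂ →+* ℂ).comp z'.2) else 0) := by
        intro z'
        have h4 : (x w = inv z') ↔ (inv (x w) = z') :=
          ⟨fun h => by rw [h, hinv], fun h => by rw [← h, hinv]⟩
        simp only [h4]
        split_ifs <;> ring
      rw [sum_congr rfl fun z' _ => h3 z', sum_sub_distrib, sum_ite_eq univ (x w),
        sum_ite_eq univ (inv (x w)), if_pos (mem_univ _), if_pos (mem_univ _)]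
      have h5 : ε (inv (x w)).1 ((σ : ℂ →+* ℂ).comp (inv (x w)).2) =
          - ε (x w).1 ((σ : ℂ →+* ℂ).comp (x w).2) := by
        change ε (x w).1 ((σ : ℂ →+* ℂ).comp (ComplexEmbedding.conjugate (x w).2)) = _
        rw [QC.comp_conj, hεc]
      have h6 : κ (inv (x w)).1 = κ (x w).1 := rfl
      rw [h5, h6]
      ring
    rw [sum_congr rfl fun w _ => h2 w, ← mul_sum, hrel σ, mul_zero]
  have h0 : ∀ i φ, a i φ = 0 := fun i φ =>
    (mul_eq_zero.1 (GS.trivial_real hind hM hΦ (fun i => nondeg (hM i) (hR i) (hΦ i)) c hc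
      hrel' i φ)).resolve_left (hκ i)
  obtain ⟨i, φ⟩ := y
  have h1 := h0 i φ
  simp only [a, sum_sub_distrib] at h1
  exact sub_eq_zero.1 h1

/-- A multiplicative relation between Weil numbers with rigid slopes is invariant under complex
conjugation. -/
theorem count_conj_of_prod [∀ j, DecidableEq (K j →+* ℂ)] [DecidableEq J] (hind : PairwiseIndep K)
    {M : ∀ j, (K j →+* ℂ) → ℤ}
    (hM : ∀ j φ, M j (ComplexEmbedding.conjugate φ) = M j φ) (hR : ∀ j, IsRigid (M j))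
    {Φ : ∀ j, Set (K j →+* ℂ)} (hΦ : ∀ j, IsCMType (Φ j)) {κ b : J → ℝ} (hκ : ∀ j, κ j ≠ 0)
    {p : ℕ} [Fact p.Prime] (ν : PadicAlgCl p ≃+* ℂ) (ϖ : ∀ j, K j)
    (hs : ∀ j, GS.HasSlopes ν (M j) (Φ j) (b j) (κ j) (ϖ j))
    {Z : Type} [Fintype Z] (x : Z → Σ j, (K j →+* ℂ)) (h0 : ∀ z, ϖ (x z).1 ≠ 0) (N : ℕ)
    (hN : 0 < N) (r : ℝ)
    (hr : (∏ z, (x z).2 (ϖ (x z).1)) ^ N = (r : ℂ)) (y : Σ j, (K j →+* ℂ)) :
    (∑ z, if x z = y then (1 : ℝ) else 0) =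
      ∑ z, if x z = ⟨y.1, ComplexEmbedding.conjugate y.2⟩ then (1 : ℝ) else 0 := by
  classical
  refine count_conj hind hM hR hΦ hκ x (fun σ => ?_) y
  set u : Z → ℂ := fun z => (x z).2 (ϖ (x z).1) with hu
  have hu0 : ∀ z, u z ≠ 0 := fun z => by
    rw [hu]
    exact (map_ne_zero _).2 (h0 _)
  have hconj : (∏ z, (starRingEnd ℂ) (u z)) ^ N = (r : ℂ) := by
    rw [← map_prod, ← map_pow]
    change (starRingEnd ℂ) ((∏ z, (x z).2 (ϖ (x z).1)) ^ N) = _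
    rw [hr, Complex.conj_ofReal]
  have heq : ‖ν.symm (σ (∏ z, u z))‖ = ‖ν.symm (σ (∏ z, (starRingEnd ℂ) (u z)))‖ := by
    have h1 : ‖ν.symm (σ (∏ z, u z))‖ ^ N = ‖ν.symm (σ (∏ z, (starRingEnd ℂ) (u z)))‖ ^ N := by
      rw [← norm_pow, ← norm_pow, ← map_pow, ← map_pow, ← map_pow, ← map_pow, hconj]
      change ‖ν.symm (σ ((∏ z, (x z).2 (ϖ (x z).1)) ^ N))‖ = _
      rw [hr]
    exact (pow_left_inj₀ (norm_nonneg _) (norm_nonneg _) hN.ne').1 h1
  have hne : ∀ v : ℂ, v ≠ 0 → ‖ν.symm (σ v)‖ ≠ 0 := fun v hv => by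
    rw [norm_ne_zero_iff]
    exact (map_ne_zero _).2 ((map_ne_zero _).2 hv)
  have hc0 : ∀ z, (starRingEnd ℂ) (u z) ≠ 0 := fun z => (map_ne_zero _).2 (hu0 z)
  have hlog : ∑ z, (- Real.logb p ‖ν.symm (σ (u z))‖) =
      ∑ z, (- Real.logb p ‖ν.symm (σ ((starRingEnd ℂ) (u z)))‖) := by
    rw [sum_neg_distrib, sum_neg_distrib, ← Real.logb_prod _ _ fun z _ => hne _ (hu0 z),
      ← Real.logb_prod _ _ fun z _ => hne _ (hc0 z)]
    simp only [map_prod, norm_prod] at heq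
    rw [heq]
  have hsg : ∀ z, κ (x z).1 * ((CM.sgn (Φ (x z).1) ((σ : ℂ →+* ℂ).comp (x z).2) *
      M (x z).1 ((σ : ℂ →+* ℂ).comp (x z).2) : ℤ) : ℝ) =
      (- Real.logb p ‖ν.symm (σ (u z))‖) -
        (- Real.logb p ‖ν.symm (σ ((starRingEnd ℂ) (u z)))‖) := by
    intro z
    have e1 := hs (x z).1 ((σ : ℂ →+* ℂ).comp (x z).2)
    have e2 := hs (x z).1 ((σ : ℂ →+* ℂ).comp (ComplexEmbedding.conjugate (x z).2))
    have f1 : ((σ : ℂ →+* ℂ).comp (x z).2) (ϖ (x z).1) = σ (u z) := rfl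
    have f2 : ((σ : ℂ →+* ℂ).comp (ComplexEmbedding.conjugate (x z).2)) (ϖ (x z).1) =
        σ ((starRingEnd ℂ) (u z)) := rfl
    rw [f1] at e1
    rw [f2] at e2
    have hsgn : ∀ φ : K (x z).1 →+* ℂ, (if φ ∈ Φ (x z).1 then (M (x z).1 φ : ℝ) else
        - M (x z).1 φ) = ((CM.sgn (Φ (x z).1) φ * M (x z).1 φ : ℤ) : ℝ) := by
      intro φ
      unfold CM.sgn
      split_ifs <;> push_cast <;> ring
    rw [hsgn] at e1 e2
    have f3 : ((CM.sgn (Φ (x z).1) ((σ : ℂ →+* ℂ).comp (ComplexEmbedding.conjugate (x z).2)) *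
        M (x z).1 ((σ : ℂ →+* ℂ).comp (ComplexEmbedding.conjugate (x z).2)) : ℤ) : ℝ) =
        - ((CM.sgn (Φ (x z).1) ((σ : ℂ →+* ℂ).comp (x z).2) *
          M (x z).1 ((σ : ℂ →+* ℂ).comp (x z).2) : ℤ) : ℝ) := by
      rw [QC.comp_conj, hM, (oddSign_sgn (hΦ (x z).1)).2]
      push_cast
      ring
    rw [f3] at e2
    linarith
  rw [sum_congr rfl fun z _ => hsg z, sum_sub_distrib, hlog, sub_self]

end Pool.Agent.K7.H7.AS
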